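import Mathlib
import Pool.Agent.H262R3.Lk.Fn8

/-!
The uniform prime k-tuplets conjecture for a positive proportion of the `m`-element subsets of every large
admissible set, with a bound polynomial in the largest leading coefficient; the only excluded leading
coefficients are the multiples of one integer `f > (log M) ^ B`.
-/

namespace Pool.Agent.Results.MP_746f10_nt.LinnikScaleManyPrimes
open Finset

/-- the set of linear forms `a i * x + b i` is admissible in the sense of the problem -/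
def Admissible {k : ℕ} (a b : Fin k → ℕ) : Prop :=
  (∀ i, 1 ≤ b i ∧ b i < a i) ∧ ∀ p : ℕ, p.Prime → ∃ n : ℤ, ∀ i, ¬ (p : ℤ) ∣ a i * n + b i

open Classical in
theorem result (m : ℕ) : ∃ K A : ℕ, ∃ c : ℝ, 0 < c ∧ ∀ B : ℕ, ∃ γ : ℝ, ∀ M : ℕ, 2 ≤ M → ∃ f : ℕ,
    (Real.log M) ^ B < f ∧
    ∀ k : ℕ, K ≤ k → ∀ a b : Fin k → ℕ, Admissible a b → Function.Injective (fun i => (a i, b i)) →
      (∀ i, a i ≤ M) → (∀ i, ¬ f ∣ a i) →
      c * k.choose m ≤ #{S ∈ powersetCard m (univ : Finset (Fin k)) |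
        ∃ n : ℕ, (n : ℝ) ≤ γ * (M : ℝ) ^ A ∧ ∀ i ∈ S, (a i * n + b i).Prime} := by
  obtain ⟨K, A, c, hc, h⟩ := Pool.Agent.H262R3.Lk.finL2 m
  refine ⟨K, A, c, hc, fun B => ?_⟩
  obtain ⟨γ, h⟩ := h B
  refine ⟨γ, fun M hM => ?_⟩
  obtain ⟨f, hf, hF⟩ := h M hM
  refine ⟨f, hf, ?_⟩
  intro k hk a b hadm hinj haM hFa
  have hA : Pool.Agent.H262R2.UM.Adm a b := by
    intro p hp
    obtain ⟨n, hn⟩ := hadm.2 p hp
    have hp0 : (p : ℤ) ≠ 0 := by exact_mod_cast hp.ne_zero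
    refine ⟨(n % (p : ℤ)).toNat, fun i hd => hn i ?_⟩
    have h1 : ((n % (p : ℤ)).toNat : ℤ) = n % p := Int.toNat_of_nonneg (Int.emod_nonneg n hp0)
    have h2 : (p : ℤ) ∣ (a i : ℤ) * (n % p) + b i := by
      have h3 := Int.natCast_dvd_natCast.2 hd
      push_cast at h3
      rwa [h1] at h3
    have h4 : (p : ℤ) ∣ (a i : ℤ) * n - (a i : ℤ) * (n % p) := by
      rw [← mul_sub]
      exact Dvd.dvd.mul_left (Int.dvd_self_sub_emod) _
    have h5 := dvd_add h2 h4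
    have h6 : (a i : ℤ) * (n % p) + b i + ((a i : ℤ) * n - (a i : ℤ) * (n % p)) = a i * n + b i := by ring
    rwa [h6] at h5
  exact hF k hk a b hA (fun i => ⟨lt_of_lt_of_le (hadm.1 i).1 (hadm.1 i).2.le, (hadm.1 i).2.le⟩) hinj haM hFa

end Pool.Agent.Results.MP_746f10_nt.LinnikScaleManyPrimes
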