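import Mathlib
import Pool.Agent.H262R2.UP.Fin

/-!
The uniform prime k-tuplets conjecture with the requirement that all `k` values are prime weakened to at least `m` of `K(m)` values,
for every prescribed admissible set whose leading coefficients have few divisors and are not divisible by
any of `(log M) ^ C` exceptional integers, with the bound `n ≤ γ * M ^ 1000`.
-/

namespace Pool.Agent.Results.MP_746f10_nt.ManyPrimesFewBadDivisors
open Finset

/-- the set of linear forms `a i * x + b i` is admissible in the sense of the problem -/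
def Admissible {k : ℕ} (a b : Fin k → ℕ) : Prop :=
  (∀ i, 1 ≤ b i ∧ b i < a i) ∧ ∀ p : ℕ, p.Prime → ∃ n : ℤ, ∀ i, ¬ (p : ℤ) ∣ a i * n + b i

theorem result (m : ℕ) : ∃ K : ℕ, ∀ D : ℕ, ∃ C : ℕ, ∀ B : ℕ, ∃ γ : ℝ, ∀ M : ℕ, 2 ≤ M → ∃ F : Finset ℕ,
    (#F : ℝ) ≤ (Real.log M) ^ C ∧ (∀ f ∈ F, (Real.log M) ^ B < f) ∧
    ∀ a b : Fin K → ℕ, Admissible a b → Function.Injective (fun i => (a i, b i)) → (∀ i, a i ≤ M) →
      (∀ i, (#(a i).divisors : ℝ) ≤ (Real.log M) ^ D) → (∀ i, ∀ f ∈ F, ¬ f ∣ a i) →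
      ∃ n : ℕ, (n : ℝ) ≤ γ * (M : ℝ) ^ 1000 ∧ m ≤ #{i | (a i * n + b i).Prime} := by
  obtain ⟨K, h⟩ := Pool.Agent.H262R2.UP.finP m
  refine ⟨K, fun D => ?_⟩
  obtain ⟨C, h⟩ := h D
  refine ⟨C, fun B => ?_⟩
  obtain ⟨γ, h⟩ := h B
  refine ⟨γ, fun M hM => ?_⟩
  obtain ⟨F, hF1, hF2, hF3⟩ := h M hM
  refine ⟨F, hF1, hF2, ?_⟩
  intro a b hadm hinj haM hτ hFa
  have hA : Pool.Agent.H262R2.UM.Adm a b := by
    intro p hp
    obtain ⟨n, hn⟩ := hadm.2 p hp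
    have hp0 : (p : ℤ) ≠ 0 := by exact_mod_cast hp.ne_zero
    refine ⟨(n % (p : ℤ)).toNat, fun i hd => hn i ?_⟩
    have h1 : ((n % (p : ℤ)).toNat : ℤ) = n % p := Int.toNat_of_nonneg (Int.emod_nonneg n hp0)
    have h2 : (p : ℤ) ∣ (a i : ℤ) * (n % p) + b i := by
      have h3 := Int.natCast_dvd_natCast.2 hd
      push_cast at h3
      rwa [h1] at h3
    have h4 : (p : ℤ) ∣ (a i : ℤ) * n - (a i : ℤ) * (n % p) := by
      rw [← mul_sub]
      exact Dvd.dvd.mul_left (Int.dvd_self_sub_emod) _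
    have h5 := dvd_add h2 h4
    have h6 : (a i : ℤ) * (n % p) + b i + ((a i : ℤ) * n - (a i : ℤ) * (n % p)) = a i * n + b i := by ring
    rwa [h6] at h5
  exact hF3 a b hA (fun i => ⟨lt_of_lt_of_le (hadm.1 i).1 (hadm.1 i).2.le, (hadm.1 i).2.le⟩) hinj haM hτ hFa

end Pool.Agent.Results.MP_746f10_nt.ManyPrimesFewBadDivisors
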