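import Mathlib
import Pool.Agent.H262R2.UK.Fin

/-!
The uniform prime k-tuplets conjecture for a positive proportion of all admissible sets with a given common
leading coefficient `a`, for every large `a`, with `n` as small as a constant times `(φ(a) log a / a) ^ k`.
-/

namespace Pool.Agent.Results.MP_746f10_nt.PositiveProportion
open Finset

/-- the set of linear forms `a i * x + b i` is admissible in the sense of the problem -/
def Admissible {k : ℕ} (a b : Fin k → ℕ) : Prop :=
  (∀ i, 1 ≤ b i ∧ b i < a i) ∧ ∀ p : ℕ, p.Prime → ∃ n : ℤ, ∀ i, ¬ (p : ℤ) ∣ a i * n + b i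

open Classical in
theorem result (k : ℕ) (hk : 1 ≤ k) (A : ℕ) : ∃ c : ℝ, 0 < c ∧ ∃ C : ℝ, ∃ a₀ : ℕ, ∀ a : ℕ, a₀ ≤ a → ∀ N : ℕ,
    C * (a.totient * Real.log a / a) ^ k ≤ N → N ≤ a ^ A →
      c * (a.totient : ℝ) ^ k ≤
        #{b ∈ Fintype.piFinset (fun _ : Fin k => Ico 1 a) | Function.Injective b ∧ Admissible (fun _ => a) b ∧
          c * N * (a / (a.totient * Real.log a)) ^ k ≤ #{n ∈ Icc 1 N | ∀ i, (a * n + b i).Prime}} := by
  obtain ⟨c, hc, C, a₀, h⟩ := Pool.Agent.H262R2.UK.main k hk A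
  refine ⟨c, hc, max C 1, max a₀ 10, fun a ha N hN hNA => ?_⟩
  have ha10 : 10 ≤ a := (le_max_right _ _).trans ha
  have har : (10 : ℝ) ≤ a := by exact_mod_cast ha10
  have ha0 : (0 : ℝ) < a := by linarith
  have hφ : (0 : ℝ) < a.totient := by exact_mod_cast Nat.totient_pos.2 (by omega)
  have hlog : 0 < Real.log a := Real.log_pos (by linarith)
  have hs0 : 0 < (a.totient * Real.log a / a : ℝ) ^ k := by positivity
  have hN' : C * (a.totient * Real.log a / a : ℝ) ^ k ≤ N := by
    refine le_trans ?_ hN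
    exact mul_le_mul_of_nonneg_right (le_max_left _ _) hs0.le
  have hNpos : (0 : ℝ) < N := by
    refine lt_of_lt_of_le ?_ hN
    have : (1 : ℝ) ≤ max C 1 := le_max_right _ _
    positivity
  refine (h a ((le_max_left _ _).trans ha) N hN' hNA).trans ?_
  rw [Nat.cast_le]
  apply Finset.card_le_card
  intro b hb
  rw [Finset.mem_filter, Fintype.mem_piFinset] at hb ⊢
  obtain ⟨hb1, hinj, hR⟩ := hb
  have hb2 : ∀ i, 1 ≤ b i ∧ b i < a := by
    intro i
    have := hb1 i
    unfold Pool.Agent.H262R2.UK.BB at this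
    rw [Finset.mem_filter, Finset.mem_Ico] at this
    exact this.1
  refine ⟨fun i => Finset.mem_Ico.2 (hb2 i), hinj, ⟨hb2, ?_⟩, ?_⟩
  · intro p hp
    rcases Nat.lt_or_ge a p with hap | hap
    · refine ⟨0, fun i hdvd => ?_⟩
      rw [mul_zero, zero_add] at hdvd
      have h1 : p ∣ b i := Int.natCast_dvd_natCast.1 hdvd
      have h2 := Nat.le_of_dvd (hb2 i).1 h1
      have h3 := (hb2 i).2
      omega
    · have hpos : (0 : ℝ) < (Pool.Agent.H262R2.UK.RR a N b : ℝ) := by
        refine lt_of_lt_of_le ?_ hR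
        positivity
      have hpos' : 0 < Pool.Agent.H262R2.UK.RR a N b := by exact_mod_cast hpos
      obtain ⟨n, hn⟩ := Finset.card_pos.1 hpos'
      rw [Finset.mem_filter, Finset.mem_Icc] at hn
      refine ⟨n, fun i hdvd => ?_⟩
      have h1 : p ∣ a * n + b i := by exact_mod_cast hdvd
      have h2 := (Nat.prime_dvd_prime_iff_eq hp (hn.2 i)).1 h1
      have h3 : a * 1 ≤ a * n := Nat.mul_le_mul_left _ hn.1.1
      have h4 := (hb2 i).1
      omega
  · refine hR.trans (le_of_eq ?_)
    unfold Pool.Agent.H262R2.UK.RR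
    congr

end Pool.Agent.Results.MP_746f10_nt.PositiveProportion
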