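import Pool.Agent.H661R3.UP.Final

open Finset

namespace Pool.Agent.Results.MP_746f10_nt.UniformParity

/-- **Uniform almost prime k-tuplets with prescribed parity.**
For every `k` there are `A`, `R` and `γ > 0` such that for every admissible set of `k` distinct linear forms
`a_i x + b_i` (`1 ≤ b_i < a_i`), every odd-size subset `S` of the forms and each parity `s`, there is an
integer `0 ≤ n ≤ γ (a_1 ⋯ a_k) ^ A` such that every `a_i n + b_i` is a product of at most `R` primes, all of
them larger than `a_1 ⋯ a_k`, and the total number of prime factors (with multiplicity) of the values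
`a_i n + b_i` with `i ∈ S` has the parity `s`. -/
theorem result (k : ℕ) : ∃ A R : ℕ, ∃ γ : ℝ, 0 < γ ∧ ∀ a b : Fin k → ℕ,
    (∀ i, 1 ≤ b i ∧ b i < a i) → Function.Injective (fun i => (a i, b i)) →
    (∀ p : ℕ, p.Prime → ∃ n : ℤ, ∀ i, ¬ (p : ℤ) ∣ a i * n + b i) →
    ∀ S : Finset (Fin k), Odd S.card → ∀ s : ZMod 2,
    ∃ n : ℕ, (n : ℝ) ≤ γ * ((∏ i, a i : ℕ) : ℝ) ^ A ∧
      (∀ i, ArithmeticFunction.cardFactors (a i * n + b i) ≤ R ∧
        ∀ p : ℕ, p.Prime → p ∣ a i * n + b i → ∏ j, a j < p) ∧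
      ((∑ i ∈ S, ArithmeticFunction.cardFactors (a i * n + b i) : ℕ) : ZMod 2) = s :=
  Pool.Agent.H661R3.UP.kt k

end Pool.Agent.Results.MP_746f10_nt.UniformParity
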